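import Pool.Agent.H90.GC.W2
import Pool.Agent.H2.GC.Base
import Pool.Agent.H34.GC.C

/-!
Module R: reduced words with two coincidences.
-/

set_option autoImplicit false
set_option linter.unusedSectionVars false
set_option linter.unusedSimpArgs false
set_option linter.unusedVariables false

open Finset Pool.Agent.H23.GW Pool.Agent.H23.GC Pool.Agent.H59.GC
open scoped Classical Nat

namespace Pool.Agent.H90.GC

noncomputable section

private theorem cfs {α : Type} {s : Finset α} {P : α → Prop} {d1 d2 : DecidablePred P} :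
    #(@Finset.filter α P d1 s) = #(@Finset.filter α P d2 s) := by
  cases Subsingleton.elim d1 d2
  rfl

private theorem cfi {α : Type} {f1 f2 : Fintype α} {P : α → Prop} {d1 d2 : DecidablePred P} :
    #(@Finset.filter α P d1 (@Finset.univ α f1)) = #(@Finset.filter α P d2 (@Finset.univ α f2)) := by
  cases Subsingleton.elim f1 f2
  cases Subsingleton.elim d1 d2
  rfl

private theorem nrf {ι K : Type} [Fintype ι] {f1 f2 : Fintype K} {g1 g2 : Fintype (K → ι × Bool)}
    {d1 : DecidablePred fun w : K → ι × Bool => nrm (@vs ι K f1 w) = @Fintype.card K f1}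
    {d2 : DecidablePred fun w : K → ι × Bool => nrm (@vs ι K f2 w) = @Fintype.card K f2} :
    #(@Finset.filter (K → ι × Bool) (fun w => nrm (@vs ι K f1 w) = @Fintype.card K f1) d1
        (@Finset.univ _ g1)) =
      #(@Finset.filter (K → ι × Bool) (fun w => nrm (@vs ι K f2 w) = @Fintype.card K f2) d2
        (@Finset.univ _ g2)) := by
  cases Subsingleton.elim f1 f2
  exact cfi

variable {ι : Type} [Fintype ι] {κ : Type} [Fintype κ]

theorem vs_split (w : κ → ι × Bool) (p : κ → Prop) :
    vs w = vs (fun k : {k // p k} => w k) + vs (fun k : {k // ¬ p k} => w k) := by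
  unfold vs
  exact (Fintype.sum_subtype_add_sum_subtype p (fun k => dv (w k))).symm

theorem sub_reduced (w : κ → ι × Bool) (p : κ → Prop) (h : nrm (vs w) = Fintype.card κ) :
    nrm (vs (fun k : {k // ¬ p k} => w k)) = Fintype.card {k // ¬ p k} := by
  have h1 := nrm_vs_le (fun k : {k // ¬ p k} => w k)
  have h2 := nrm_vs_le (fun k : {k // p k} => w k)
  have h3 := H2.GC.nrm_triangle (vs (fun k : {k // p k} => w k))
    (vs (fun k : {k // ¬ p k} => w k))
  rw [← vs_split w p, h] at h3
  have h4 : Fintype.card {k // p k} + Fintype.card {k // ¬ p k} = Fintype.card κ := by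
    rw [Fintype.card_subtype_compl]
    have := Fintype.card_subtype_le p
    omega
  omega

/-- the number of reduced words -/
theorem reduced_count (s : ℕ) (hs : 2 ≤ s) (hκ : Fintype.card κ = s) (C : ℝ)
    (hC : (#{c ∈ Vn ι s | ell c ≤ s - 2} : ℝ) ≤ C * (Fintype.card ι : ℝ) ^ (s - 2)) :
    (#{w : κ → ι × Bool | nrm (vs w) = Fintype.card κ} : ℝ) ≤
      s ! * #{d ∈ Vn ι s | ell d = s} + (s ! / 2) * #{d ∈ Vn ι s | ell d + 1 = s} +
        s ! * C * (Fintype.card ι : ℝ) ^ (s - 2) := by
  have hmap : ∀ w ∈ ({w : κ → ι × Bool | nrm (vs w) = Fintype.card κ} : Finset _),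
      vs w ∈ Vn ι s := by
    intro w hw
    rw [mem_filter] at hw
    rw [H2.GC.mem_Vn, hw.2, hκ]
  have h1 := card_eq_sum_card_fiberwise (f := fun w : κ → ι × Bool => vs w)
    (s := ({w : κ → ι × Bool | nrm (vs w) = Fintype.card κ} : Finset _)) (t := Vn ι s) hmap
  have h2 : ∀ d ∈ Vn ι s, #{w ∈ ({w : κ → ι × Bool | nrm (vs w) = Fintype.card κ} : Finset _) |
      vs w = d} = #{w : κ → ι × Bool | vs w = d} := by
    intro d hd
    congr 1
    ext w
    simp only [mem_filter, mem_univ, true_and]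
    constructor
    · exact fun h => h.2
    · intro h
      rw [H2.GC.mem_Vn] at hd
      exact ⟨by rw [h, hd, hκ], h⟩
  rw [sum_congr rfl h2] at h1
  have h3 : ∀ d ∈ Vn ι s, (#{w : κ → ι × Bool | vs w = d} : ℝ) ≤
      (if ell d = s then (s ! : ℝ) else 0) + (if ell d + 1 = s then (s ! / 2 : ℝ) else 0) +
        (if ell d ≤ s - 2 then (s ! : ℝ) else 0) := by
    intro d hd
    rw [H2.GC.mem_Vn] at hd
    have hd' : nrm d = Fintype.card κ := by rw [hd, hκ]
    obtain ⟨-, h4⟩ := Pool.Agent.H59.GC.w ι κ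
    obtain ⟨-, h5, -⟩ := h4 d hd'
    have h6 := (w2 ι κ d hd').1
    have h7 := exc_add d
    rw [hκ] at h5 h6
    have h5' : (#{w : κ → ι × Bool | vs w = d} : ℝ) ≤ s ! := by exact_mod_cast h5
    by_cases ha : ell d = s
    · rw [if_pos ha, if_neg (by omega), if_neg (by omega)]
      linarith
    · by_cases hb : ell d + 1 = s
      · rw [if_neg ha, if_pos hb, if_neg (by omega)]
        have h8 : 2 * (#{w : κ → ι × Bool | vs w = d} : ℝ) = s ! := by exact_mod_cast h6 hb
        linarith
      · rw [if_neg ha, if_neg hb, if_pos (by omega)]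
        linarith
  rw [h1]
  push_cast
  refine (sum_le_sum h3).trans ?_
  rw [sum_add_distrib, sum_add_distrib, ← sum_filter, ← sum_filter, ← sum_filter, sum_const,
    sum_const, sum_const, nsmul_eq_mul, nsmul_eq_mul, nsmul_eq_mul]
  have h9 : (0 : ℝ) ≤ s ! := Nat.cast_nonneg _
  have h10 := mul_le_mul_of_nonneg_left hC h9
  linarith

/-- module R -/
theorem r : T_R := by
  intro s hs
  obtain ⟨C, hC⟩ := H34.GC.T_C_holds.2.2 s (s - 2)
  refine ⟨s ! * C, ?_⟩
  intro ι _ hι κ _ hκ i j k l hn
  simp only [List.nodup_cons, List.mem_cons, List.not_mem_nil, or_false, not_or,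
    not_false_eq_true, List.nodup_nil, and_true] at hn
  obtain ⟨⟨hij, hik, hil⟩, ⟨hjk, hjl⟩, hkl⟩ := hn
  obtain ⟨p, hp⟩ : ∃ p : κ → Prop, ∀ q, p q ↔ (q = j ∨ q = l) := ⟨_, fun _ => Iff.rfl⟩
  have hpc : #{q | p q} = 2 := by
    have : ({q | p q} : Finset κ) = {j, l} := by
      ext q
      simp [hp]
    rw [this, Finset.card_pair hjl]
  have hcard : Fintype.card {k // ¬ p k} = s := by
    rw [Fintype.card_subtype_compl, Fintype.card_subtype, hpc, hκ]
    omega
  have hpi : ¬ p i := by
    rw [hp]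
    rintro (h | h)
    · exact hij h
    · exact hil h
  have hpk : ¬ p k := by
    rw [hp]
    rintro (h | h)
    · exact hjk h.symm
    · exact hkl h
  have h1 : #{w : κ → ι × Bool | nrm (vs w) = Fintype.card κ ∧ w i = w j ∧ w k = w l} ≤
      #{w : {k // ¬ p k} → ι × Bool | nrm (vs w) = Fintype.card {k // ¬ p k}} := by
    refine card_le_card_of_injOn (fun w => fun q : {k // ¬ p k} => w q) ?_ ?_
    · intro w hw
      simp only [coe_filter, mem_univ, true_and, Set.mem_ofPred_eq] at hw ⊢
      exact sub_reduced w p hw.1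
    · intro w hw w' hw' hww
      simp only [coe_filter, mem_univ, true_and, Set.mem_ofPred_eq] at hw hw'
      have h2 : ∀ q, ¬ p q → w q = w' q := fun q hq => congrFun hww ⟨q, hq⟩
      ext1 q
      by_cases hq : p q
      · rcases (hp q).1 hq with rfl | rfl
        · rw [← hw.2.1, ← hw'.2.1, h2 i hpi]
        · rw [← hw.2.2, ← hw'.2.2, h2 k hpk]
      · exact h2 q hq
  have h2 := reduced_count (ι := ι) (κ := {k // ¬ p k}) s (by omega) hcard C (hC ι hι)
  refine le_trans (Nat.cast_le.2 ?_) h2
  exact le_of_eq_of_le cfi (h1.trans_eq nrf)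

end

end Pool.Agent.H90.GC
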