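import Pool.Agent.H59.GC.W
import Pool.Agent.H2.GC.Base
import Pool.Agent.H23.GC.Targets2

/-!
Module RC: vectors of norm `s + 1` with one defect.
-/

set_option autoImplicit false
set_option linter.unusedSectionVars false
set_option linter.unusedSimpArgs false
set_option linter.unusedVariables false

open Finset Pool.Agent.H23.GW Pool.Agent.H23.GC Pool.Agent.H59.GC
open scoped Classical Nat

namespace Pool.Agent.H90.GC

noncomputable section

variable {ι : Type} [Fintype ι]

theorem mem_Vn' (n : ℕ) (c : ι → ℤ) : c ∈ Vn ι n ↔ nrm c = n := by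
  unfold Vn
  simp only [mem_filter, Fintype.mem_piFinset, mem_Icc, and_iff_right_iff_imp]
  intro h i
  have h1 : (c i).natAbs ≤ nrm c := single_le_sum (f := fun i => (c i).natAbs)
    (fun i _ => Nat.zero_le _) (mem_univ i)
  omega

theorem nrm_update (d : ι → ℤ) (i : ι) (a : ℤ) :
    nrm (Function.update d i a) + (d i).natAbs = nrm d + a.natAbs := by
  unfold nrm
  rw [← add_sum_erase univ _ (mem_univ i), ← add_sum_erase univ (fun j => (d j).natAbs)
    (mem_univ i)]
  have : ∑ j ∈ univ.erase i, (Function.update d i a j).natAbs =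
      ∑ j ∈ univ.erase i, (d j).natAbs := by
    refine sum_congr rfl fun j hj => ?_
    rw [Function.update_of_ne (ne_of_mem_erase hj)]
  rw [this]
  simp only [Function.update_self]
  omega

theorem ell_update (d : ι → ℤ) (i : ι) (a : ℤ) (hd : d i ≠ 0) (ha : a ≠ 0) :
    ell (Function.update d i a) = ell d := by
  unfold ell
  congr 1
  ext j
  simp only [mem_filter, mem_univ, true_and]
  by_cases h : j = i
  · subst h
    simp [hd, ha]
  · rw [Function.update_of_ne h]

/-- module RC -/
theorem rc : T_RC := by
  intro ι _ s hs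
  have h1 : #(({d ∈ Vn ι s | ell d = s} : Finset (ι → ℤ)).sigma fun d => {i | d i ≠ 0}) =
      s * #{d ∈ Vn ι s | ell d = s} := by
    rw [card_sigma, sum_congr rfl (g := fun _ => s), sum_const, smul_eq_mul, mul_comm]
    intro d hd
    rw [mem_filter] at hd
    exact hd.2
  rw [← h1]
  symm
  have habs : ∀ d : ι → ℤ, nrm d = s → ell d = s → ∀ i, (d i).natAbs ≤ 1 := by
    intro d h2 h3 i
    have h4 := exc_add d
    have h5 : ∑ i, exc d i = 0 := by omega
    have h6 := exc_natAbs d i
    rw [sum_eq_zero_iff.1 h5 i (mem_univ _)] at h6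
    omega
  refine card_bij (fun x _ => Function.update x.1 x.2 (2 * x.1 x.2)) ?_ ?_ ?_
  · rintro ⟨d, i⟩ h
    rw [mem_sigma, mem_filter, mem_Vn', mem_filter] at h
    obtain ⟨⟨h2, h3⟩, -, h4⟩ := h
    simp only at h2 h3 h4 ⊢
    rw [mem_filter, mem_Vn']
    have h5 := habs d h2 h3 i
    have h6 := nrm_update d i (2 * d i)
    refine ⟨by omega, ?_⟩
    rw [ell_update d i _ h4 (by omega), h3]
  · rintro ⟨d, i⟩ h ⟨d', i'⟩ h' heq
    rw [mem_sigma, mem_filter, mem_Vn', mem_filter] at h h'
    obtain ⟨⟨h2, h3⟩, -, h4⟩ := h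
    obtain ⟨⟨h2', h3'⟩, -, h4'⟩ := h'
    simp only at h2 h3 h4 h2' h3' h4' heq
    have hii : i = i' := by
      by_contra hne
      have h5 := congrFun heq i
      rw [Function.update_self, Function.update_of_ne hne] at h5
      have := habs d' h2' h3' i
      omega
    subst hii
    have hdd : d = d' := by
      ext j
      have h5 := congrFun heq j
      by_cases hj : j = i
      · subst hj
        rw [Function.update_self, Function.update_self] at h5
        omega
      · rwa [Function.update_of_ne hj, Function.update_of_ne hj] at h5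
    subst hdd
    rfl
  · intro c hc
    rw [mem_filter, mem_Vn'] at hc
    obtain ⟨h2, h3⟩ := hc
    have h4 := exc_add c
    have h5 : ∑ i, exc c i = 1 := by omega
    obtain ⟨i, -, hi⟩ : ∃ i ∈ (univ : Finset ι), exc c i ≠ 0 := by
      apply exists_ne_zero_of_sum_ne_zero
      omega
    have h6 := add_sum_erase univ (exc c) (mem_univ i)
    have h7 : exc c i = 1 := by omega
    have h8 := natAbs_exc c i hi
    have h9 : ∃ a : ℤ, c i = 2 * a ∧ a.natAbs = 1 := by
      rcases Int.natAbs_eq (c i) with h | h
      · exact ⟨1, by omega, rfl⟩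
      · exact ⟨-1, by omega, rfl⟩
    obtain ⟨a, ha, ha'⟩ := h9
    refine ⟨⟨Function.update c i a, i⟩, ?_, ?_⟩
    · rw [mem_sigma, mem_filter, mem_Vn', mem_filter]
      simp only [Function.update_self]
      have h10 := nrm_update c i a
      have h11 := ell_update c i a (by omega) (by omega)
      exact ⟨⟨by omega, by omega⟩, mem_univ _, by omega⟩
    · simp only [Function.update_self, Function.update_idem]
      rw [← ha, Function.update_eq_self]

end

end Pool.Agent.H90.GC
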