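import Pool.Agent.H90.GC.W2Core

/-!
Module W2: more word counts.
-/

set_option autoImplicit false
set_option linter.unusedSectionVars false
set_option linter.unusedSimpArgs false
set_option linter.unusedVariables false

open Finset Pool.Agent.H23.GW Pool.Agent.H23.GC Pool.Agent.H59.GC
open scoped Classical Nat

namespace Pool.Agent.H90.GC

noncomputable section

section Gen

private theorem cfs {α : Type} {s : Finset α} {P : α → Prop} {d1 d2 : DecidablePred P} :
    #(@Finset.filter α P d1 s) = #(@Finset.filter α P d2 s) := by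
  cases Subsingleton.elim d1 d2
  rfl

private theorem cfi {α : Type} {f1 f2 : Fintype α} {P : α → Prop} {d1 d2 : DecidablePred P} :
    #(@Finset.filter α P d1 (@Finset.univ α f1)) = #(@Finset.filter α P d2 (@Finset.univ α f2)) := by
  cases Subsingleton.elim f1 f2
  cases Subsingleton.elim d1 d2
  rfl

private theorem ccf2 {K D : Type} {f1 f2 : Fintype K} (c : D → ℕ) (a b : K)
    {g1 g2 : Fintype (K → D)}
    {d1 : DecidablePred fun w : K → D => (∀ x, @cnt D K f1 w x = c x) ∧ w a = w b}
    {d2 : DecidablePred fun w : K → D => (∀ x, @cnt D K f2 w x = c x) ∧ w a = w b} :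
    #(@Finset.filter (K → D) (fun w => (∀ x, @cnt D K f1 w x = c x) ∧ w a = w b) d1
        (@Finset.univ _ g1)) =
      #(@Finset.filter (K → D) (fun w => (∀ x, @cnt D K f2 w x = c x) ∧ w a = w b) d2
        (@Finset.univ _ g2)) := by
  cases Subsingleton.elim f1 f2
  exact cfi

variable {κ D : Type} [Fintype κ] [Fintype D]

/-- words with equal letters at three positions -/
theorem card_eq3 (c : D → ℕ) (h : ∑ x, c x = Fintype.card κ) (i j k : κ) (hn : [i, j, k].Nodup) :
    #{w : κ → D | (∀ y, cnt w y = c y) ∧ w i = w j ∧ w j = w k} * ∏ y, (c y)! =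
      (Fintype.card κ - 3)! * ∑ x, (c x).descFactorial 3 := by
  simp only [List.nodup_cons, List.mem_cons, List.not_mem_nil, or_false, not_or,
    not_false_eq_true, List.nodup_nil, and_true] at hn
  obtain ⟨⟨hij, hik⟩, hjk⟩ := hn
  have hpc : #{q | q = i ∨ q = j ∨ q = k} = 3 := by
    have : ({q | q = i ∨ q = j ∨ q = k} : Finset κ) = {i, j, k} := by
      ext q
      simp
    rw [this, card_eq_three]
    exact ⟨i, j, k, hij, hik, hjk, rfl⟩
  have h1 : #{w : κ → D | (∀ y, cnt w y = c y) ∧ w i = w j ∧ w j = w k} =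
      ∑ x, #{w : κ → D | (∀ y, cnt w y = c y) ∧ ∀ q, (q = i ∨ q = j ∨ q = k) → w q = x} := by
    rw [card_eq_sum_card_fiberwise (f := fun w : κ → D => w i) (t := univ) (fun _ _ => mem_univ _)]
    refine sum_congr rfl fun x _ => ?_
    congr 1
    ext w
    simp only [mem_filter, mem_univ, true_and]
    constructor
    · rintro ⟨⟨h1, h2, h3⟩, h4⟩
      refine ⟨h1, ?_⟩
      rintro q (rfl | rfl | rfl)
      · exact h4
      · rw [← h2, h4]
      · rw [← h3, ← h2, h4]
    · rintro ⟨h1, h2⟩
      have h3 := h2 i (Or.inl rfl)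
      have h4 := h2 j (Or.inr (Or.inl rfl))
      have h5 := h2 k (Or.inr (Or.inr rfl))
      exact ⟨⟨h1, by rw [h3, h4], by rw [h4, h5]⟩, h3⟩
  rw [h1, sum_mul, mul_sum]
  refine sum_congr rfl fun x _ => ?_
  have h2 := card_const c h (fun q => q = i ∨ q = j ∨ q = k) 3 (cfi.trans hpc) x
  rw [← h2]
  exact congrArg (· * _) cfi

/-- words with two pairs of equal letters, all multiplicities at most two -/
theorem card_eq22 (c : D → ℕ) (h : ∑ x, c x = Fintype.card κ) (h2 : ∀ x, c x ≤ 2) (i j k l : κ)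
    (hn : [i, j, k, l].Nodup) :
    #{w : κ → D | (∀ y, cnt w y = c y) ∧ w i = w j ∧ w k = w l} * ∏ y, (c y)! =
      (Fintype.card κ - 4)! * ((∑ x, c x * (c x - 1)) * (∑ x, c x * (c x - 1) - 2)) := by
  simp only [List.nodup_cons, List.mem_cons, List.not_mem_nil, or_false, not_or,
    not_false_eq_true, List.nodup_nil, and_true] at hn
  obtain ⟨⟨hij, hik, hil⟩, ⟨hjk, hjl⟩, hkl⟩ := hn
  obtain ⟨p, hp⟩ : ∃ p : κ → Prop, ∀ q, p q ↔ (q = i ∨ q = j) := ⟨_, fun _ => Iff.rfl⟩
  have hpc : #{q | p q} = 2 := by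
    have : ({q | p q} : Finset κ) = {i, j} := by
      ext q
      simp [hp]
    rw [this, Finset.card_pair hij]
  have hpk : ¬ p k := by
    rw [hp]
    rintro (h | h)
    · exact hik h.symm
    · exact hjk h.symm
  have hpl : ¬ p l := by
    rw [hp]
    rintro (h | h)
    · exact hil h.symm
    · exact hjl h.symm
  have h1 : #{w : κ → D | (∀ y, cnt w y = c y) ∧ w i = w j ∧ w k = w l} =
      ∑ x, #{w : κ → D | (∀ y, cnt w y = c y) ∧ (∀ q, p q → w q = x) ∧ w k = w l} := by
    rw [card_eq_sum_card_fiberwise (f := fun w : κ → D => w i) (t := univ) (fun _ _ => mem_univ _)]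
    refine sum_congr rfl fun x _ => ?_
    congr 1
    ext w
    simp only [mem_filter, mem_univ, true_and]
    constructor
    · rintro ⟨⟨h1, h2, h3⟩, h4⟩
      refine ⟨h1, ?_, h3⟩
      intro q hq
      rcases (hp q).1 hq with rfl | rfl
      · exact h4
      · rw [← h2, h4]
    · rintro ⟨h1, h2, h5⟩
      have h3 := h2 i ((hp i).2 (Or.inl rfl))
      have h4 := h2 j ((hp j).2 (Or.inr rfl))
      exact ⟨⟨h1, by rw [h3, h4], h5⟩, h3⟩
  rw [h1, sum_mul, sum_mul, mul_sum]
  refine sum_congr rfl fun x _ => ?_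
  by_cases hx : c x = 2
  · have h3 := card_fix c p (fun _ => x) (fun y => by
      rw [cntOn_const]
      split_ifs with hy
      · rw [hy, hpc, hx]
      · exact Nat.zero_le _) (fun u => u ⟨k, hpk⟩ = u ⟨l, hpl⟩)
    simp only [cntOn_const, hpc] at h3
    rw [h3]
    have hcard : Fintype.card {k // ¬ p k} = Fintype.card κ - 2 := by
      rw [Fintype.card_subtype_compl, Fintype.card_subtype, hpc]
    have hs := sum_sub c x 2 (by omega)
    have h4 := card_eq2 (κ := {k // ¬ p k}) (fun y => c y - if y = x then 2 else 0) (by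
      rw [hcard]
      omega) ⟨k, hpk⟩ ⟨l, hpl⟩ (by
        intro h
        exact hkl (congrArg Subtype.val h))
    have h5 : ∑ y, (c y - if y = x then 2 else 0) * ((c y - if y = x then 2 else 0) - 1) =
        ∑ y, c y * (c y - 1) - 2 := by
      rw [← add_sum_erase univ _ (mem_univ x), ← add_sum_erase univ (fun y => c y * (c y - 1))
        (mem_univ x)]
      have : ∑ y ∈ univ.erase x, (c y - if y = x then 2 else 0) *
          ((c y - if y = x then 2 else 0) - 1) = ∑ y ∈ univ.erase x, c y * (c y - 1) := by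
        refine sum_congr rfl fun y hy => ?_
        rw [if_neg (ne_of_mem_erase hy), Nat.sub_zero]
      rw [this]
      simp only [if_true, hx]
      omega
    rw [h5, hcard] at h4
    have h6 : Fintype.card κ - 2 - 2 = Fintype.card κ - 4 := by omega
    rw [h6] at h4
    rw [prod_sub c x 2 (by omega), mul_left_comm]
    refine (congrArg (fun z => (c x).descFactorial 2 * z) (Eq.trans ?_ h4)).trans ?_
    · exact congrArg (· * _) (ccf2 _ _ _)
    · rw [hx]
      have h7 : (2 : ℕ).descFactorial 2 = 2 := by decide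
      simp only [h7]
      ring
  · have h3 : c x * (c x - 1) = 0 := by
      have := h2 x
      have h4 : c x = 0 ∨ c x = 1 := by omega
      rcases h4 with h4 | h4 <;> rw [h4]
    rw [h3, zero_mul, mul_zero]
    have : (univ.filter fun w : κ → D => (∀ y, cnt w y = c y) ∧ (∀ q, p q → w q = x) ∧
        w k = w l) = ∅ := by
      rw [filter_eq_empty_iff]
      rintro w _ ⟨h5, h6, -⟩
      have h7 : 2 ≤ c x := by
        rw [← h5 x, ← hpc]
        unfold cnt
        refine card_le_card fun k hk => ?_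
        simp only [mem_filter, mem_univ, true_and] at hk ⊢
        exact h6 k hk
      have := h2 x
      omega
    rw [this, card_empty, zero_mul]

theorem fact_ge (c : ℕ) : c * (c - 1) + 2 ≤ 2 * c ! := by
  rcases Nat.lt_or_ge c 2 with h | h
  · interval_cases c <;> simp
  · obtain ⟨d, rfl⟩ := Nat.exists_eq_add_of_le h
    have h1 : (2 + d)! = (2 + d) * ((1 + d) * d !) := by
      rw [show 2 + d = (d + 1) + 1 from by omega, Nat.factorial_succ, Nat.factorial_succ]
      ring
    have h2 := Nat.factorial_pos d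
    have h3 : 2 + d - 1 = 1 + d := by omega
    rw [h1, h3]
    nlinarith [Nat.mul_le_mul_left ((2 + d) * (1 + d)) h2]

theorem prod_fact_ge (c : D → ℕ) (S : Finset D) :
    ∑ x ∈ S, c x * (c x - 1) + 2 ≤ 2 * ∏ x ∈ S, (c x)! := by
  induction S using Finset.induction_on with
  | empty => simp
  | insert a S ha ih =>
    rw [sum_insert ha, prod_insert ha]
    have h1 := fact_ge (c a)
    set A := c a * (c a - 1)
    set B := ∑ x ∈ S, c x * (c x - 1)
    set P := ∏ x ∈ S, (c x)!
    set F := (c a)!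
    have h2 : (A + 2) * (B + 2) ≤ (2 * F) * (2 * P) := Nat.mul_le_mul h1 ih
    nlinarith [Nat.zero_le (A * B)]

end Gen

variable {ι : Type} [Fintype ι] {κ : Type} [Fintype κ]

theorem prod_mu (v : ι → ℤ) (f : ℕ → ℕ) (hf : f 0 = 1) :
    ∏ x, f (mu v x) = ∏ i, f (v i).natAbs := by
  rw [Fintype.prod_prod_type]
  refine prod_congr rfl fun i _ => ?_
  simp only [Fintype.prod_bool, mu, if_true]
  have : (false = true) = False := by simp
  simp only [this, if_false]
  rcases le_total 0 (v i) with h | h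
  · have h1 : (v i).toNat = (v i).natAbs := by omega
    have h2 : (-v i).toNat = 0 := by omega
    rw [h1, h2, hf, mul_one]
  · have h1 : (-v i).toNat = (v i).natAbs := by omega
    have h2 : (v i).toNat = 0 := by omega
    rw [h1, h2, hf, one_mul]

theorem sum_mu' (v : ι → ℤ) (f : ℕ → ℕ) (hf : f 0 = 0) :
    ∑ x, f (mu v x) = ∑ i, f (v i).natAbs := by
  rw [Fintype.sum_prod_type]
  refine sum_congr rfl fun i _ => ?_
  simp only [Fintype.sum_bool, mu, if_true]
  have : (false = true) = False := by simp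
  simp only [this, if_false]
  rcases le_total 0 (v i) with h | h
  · have h1 : (v i).toNat = (v i).natAbs := by omega
    have h2 : (-v i).toNat = 0 := by omega
    rw [h1, h2, hf, add_zero]
  · have h1 : (-v i).toNat = (v i).natAbs := by omega
    have h2 : (v i).toNat = 0 := by omega
    rw [h1, h2, hf, zero_add]

theorem prod_one_or (v : ι → ℤ) (f : ℕ → ℕ) (hf0 : f 0 = 1) (hf1 : f 1 = 1) (S : Finset ι)
    (h : ∀ i ∈ S, exc v i = 0) : ∏ i ∈ S, f (v i).natAbs = 1 := by
  refine prod_eq_one fun i hi => ?_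
  have h1 := exc_natAbs v i
  rw [h i hi] at h1
  have h2 : (v i).natAbs = 0 ∨ (v i).natAbs = 1 := by omega
  rcases h2 with h2 | h2 <;> rw [h2]
  · exact hf0
  · exact hf1

theorem sum_zero_or (v : ι → ℤ) (f : ℕ → ℕ) (hf0 : f 0 = 0) (hf1 : f 1 = 0) (S : Finset ι)
    (h : ∀ i ∈ S, exc v i = 0) : ∑ i ∈ S, f (v i).natAbs = 0 := by
  refine sum_eq_zero fun i hi => ?_
  have h1 := exc_natAbs v i
  rw [h i hi] at h1
  have h2 : (v i).natAbs = 0 ∨ (v i).natAbs = 1 := by omega
  rcases h2 with h2 | h2 <;> rw [h2]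
  · exact hf0
  · exact hf1

/-- total excess one -/
theorem exc_one (v : ι → ℤ) (h : ∑ i, exc v i = 1) :
    ∏ i, ((v i).natAbs)! = 2 := by
  obtain ⟨i₀, -, hi₀⟩ : ∃ i₀ ∈ (univ : Finset ι), exc v i₀ ≠ 0 := by
    apply exists_ne_zero_of_sum_ne_zero
    omega
  have h2 := add_sum_erase univ (exc v) (mem_univ i₀)
  have h3 : exc v i₀ = 1 := by omega
  have h4 : ∑ x ∈ univ.erase i₀, exc v x = 0 := by omega
  rw [← mul_prod_erase univ _ (mem_univ i₀),
    prod_one_or v (fun n => n !) rfl rfl _ (fun i hi => sum_eq_zero_iff.1 h4 i hi),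
    natAbs_exc v i₀ hi₀, h3]
  rfl

/-- total excess two: one tripled coordinate or two doubled ones -/
theorem exc_two (v : ι → ℤ) (h : ∑ i, exc v i = 2) :
    (∏ i, ((v i).natAbs)! = 6 ∧ (∑ i, (v i).natAbs * ((v i).natAbs - 1)) = 6 ∧
      (∑ i, ((v i).natAbs).descFactorial 3) = 6 ∧ ∃ i, 3 ≤ (v i).natAbs) ∨
    (∏ i, ((v i).natAbs)! = 4 ∧ (∑ i, (v i).natAbs * ((v i).natAbs - 1)) = 4 ∧
      ∀ i, (v i).natAbs ≤ 2) := by
  obtain ⟨i₀, -, hi₀⟩ : ∃ i₀ ∈ (univ : Finset ι), exc v i₀ ≠ 0 := by
    apply exists_ne_zero_of_sum_ne_zero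
    omega
  have h2 := add_sum_erase univ (exc v) (mem_univ i₀)
  have h5 : exc v i₀ = 2 ∨ exc v i₀ = 1 := by omega
  have hn := natAbs_exc v i₀ hi₀
  rcases h5 with h3 | h3
  · left
    have h4 : ∑ x ∈ univ.erase i₀, exc v x = 0 := by omega
    have h5 : ∀ i ∈ univ.erase i₀, exc v i = 0 := fun i hi => sum_eq_zero_iff.1 h4 i hi
    rw [h3] at hn
    refine ⟨?_, ?_, ?_, ⟨i₀, by omega⟩⟩
    · rw [← mul_prod_erase univ _ (mem_univ i₀),
        prod_one_or v (fun n => n !) rfl rfl _ h5, hn]
      rfl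
    · rw [← add_sum_erase univ _ (mem_univ i₀),
        sum_zero_or v (fun n => n * (n - 1)) rfl rfl _ h5, hn]
    · rw [← add_sum_erase univ _ (mem_univ i₀),
        sum_zero_or v (fun n => n.descFactorial 3) rfl rfl _ h5, hn]
      rfl
  · right
    have h4 : ∑ x ∈ univ.erase i₀, exc v x = 1 := by omega
    obtain ⟨i₁, hi₁, hi₁'⟩ : ∃ i₁ ∈ univ.erase i₀, exc v i₁ ≠ 0 := by
      apply exists_ne_zero_of_sum_ne_zero
      omega
    have h6 := add_sum_erase (univ.erase i₀) (exc v) hi₁
    have h7 : exc v i₁ = 1 := by omega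
    have h8 : ∑ x ∈ (univ.erase i₀).erase i₁, exc v x = 0 := by omega
    have h5 : ∀ i ∈ (univ.erase i₀).erase i₁, exc v i = 0 := fun i hi =>
      sum_eq_zero_iff.1 h8 i hi
    have hn' := natAbs_exc v i₁ hi₁'
    rw [h3] at hn
    rw [h7] at hn'
    refine ⟨?_, ?_, ?_⟩
    · rw [← mul_prod_erase univ _ (mem_univ i₀), ← mul_prod_erase _ _ hi₁,
        prod_one_or v (fun n => n !) rfl rfl _ h5, hn, hn']
      rfl
    · rw [← add_sum_erase univ _ (mem_univ i₀), ← add_sum_erase _ _ hi₁,
        sum_zero_or v (fun n => n * (n - 1)) rfl rfl _ h5, hn, hn']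
      rfl
    · intro i
      by_cases hi : i = i₀
      · rw [hi, hn]
      · by_cases hi' : i = i₁
        · rw [hi', hn']
        · have h9 := exc_natAbs v i
          rw [h5 i (mem_erase.2 ⟨hi', mem_erase.2 ⟨hi, mem_univ _⟩⟩)] at h9
          omega

/-- module W2 -/
theorem w2 : T_W2 := by
  intro ι _ κ _ v hv
  have hset0 : (univ.filter fun w : κ → ι × Bool => vs w = v) =
      univ.filter fun w : κ → ι × Bool => (∀ x, cnt w x = mu v x) := by
    ext w
    simp only [mem_filter, mem_univ, true_and]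
    rw [vs_iff hv]
  have hsum : ∑ x, mu v x = Fintype.card κ := by rw [sum_mu, hv]
  have hex := exc_add v
  have hP : ∏ x, (mu v x)! = ∏ i, ((v i).natAbs)! := prod_mu v (fun n => n !) rfl
  have hS : ∑ x, mu v x * (mu v x - 1) = ∑ i, (v i).natAbs * ((v i).natAbs - 1) :=
    sum_mu' v (fun n => n * (n - 1)) rfl
  have hS3 : ∑ x, (mu v x).descFactorial 3 = ∑ i, ((v i).natAbs).descFactorial 3 :=
    sum_mu' v (fun n => n.descFactorial 3) rfl
  refine ⟨?_, ?_, ?_, ?_, ?_⟩
  · intro h
    have h1 := card_mul (κ := κ) (mu v) hsum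
    rw [hP, exc_one v (by omega)] at h1
    rw [hset0, mul_comm]
    exact h1
  · intro i j hij
    have h1 := card_mul (κ := κ) (mu v) hsum
    have h2 : #{w : κ → ι × Bool | (∀ x, cnt w x = mu v x) ∧ w i = w j} * ∏ y, (mu v y)! =
        (Fintype.card κ - 2)! * ∑ x, mu v x * (mu v x - 1) := by
      have := card_eq2 (κ := κ) (mu v) hsum i j hij
      exact (congrArg (· * _) cfi).trans this
    have h3 := prod_fact_ge (mu v) univ
    have h4 : 0 < ∏ x, (mu v x)! := prod_pos fun x _ => Nat.factorial_pos _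
    have hset : #{w : κ → ι × Bool | vs w = v ∧ w i = w j} =
        #{w : κ → ι × Bool | (∀ x, cnt w x = mu v x) ∧ w i = w j} := by
      congr 1
      ext w
      simp only [mem_filter, mem_univ, true_and, vs_iff hv]
    rw [hset0, hset]
    have hn : 2 ≤ Fintype.card κ := by
      have := Fintype.one_lt_card_iff.2 ⟨i, j, hij⟩
      exact this
    have h5 : (Fintype.card κ).choose 2 * (Fintype.card κ - 2)! * 2 = (Fintype.card κ)! := by
      have h6 := Nat.choose_mul_factorial_mul_factorial hn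
      rw [← h6]
      simp [Nat.factorial]
      ring
    set N := #{w : κ → ι × Bool | ∀ x, cnt w x = mu v x}
    set A := #{w : κ → ι × Bool | (∀ x, cnt w x = mu v x) ∧ w i = w j}
    set P := ∏ x, (mu v x)!
    set T := ∑ x, mu v x * (mu v x - 1)
    set F := (Fintype.card κ)!
    set F2 := (Fintype.card κ - 2)!
    set B := (Fintype.card κ).choose 2
    have h7 : (B * A + N) * P * 2 = F * (T + 2) := by
      calc (B * A + N) * P * 2 = B * (A * P) * 2 + 2 * (N * P) := by ring
        _ = B * (F2 * T) * 2 + 2 * F := by rw [h2, h1]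
        _ = (B * F2 * 2) * T + 2 * F := by ring
        _ = F * (T + 2) := by rw [h5]; ring
    have h8 : (B * A + N) * P * 2 ≤ F * P * 2 := by
      rw [h7]
      calc F * (T + 2) ≤ F * (2 * P) := Nat.mul_le_mul_left _ h3
        _ = F * P * 2 := by ring
    have h9 : (B * A + N) * P ≤ F * P := by omega
    exact Nat.le_of_mul_le_mul_right h9 h4
  · intro i j hij h
    have h2 : #{w : κ → ι × Bool | (∀ x, cnt w x = mu v x) ∧ w i = w j} * ∏ y, (mu v y)! =
        (Fintype.card κ - 2)! * ∑ x, mu v x * (mu v x - 1) := by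
      have := card_eq2 (κ := κ) (mu v) hsum i j hij
      exact (congrArg (· * _) cfi).trans this
    rw [hP, hS] at h2
    have hset : #{w : κ → ι × Bool | vs w = v ∧ w i = w j} =
        #{w : κ → ι × Bool | (∀ x, cnt w x = mu v x) ∧ w i = w j} := by
      congr 1
      ext w
      simp only [mem_filter, mem_univ, true_and, vs_iff hv]
    rw [hset]
    rcases exc_two v (by omega) with ⟨h3, h4, -, -⟩ | ⟨h3, h4, -⟩
    · rw [h3, h4] at h2
      exact Nat.eq_of_mul_eq_mul_right (by norm_num : 0 < 6) h2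
    · rw [h3, h4] at h2
      exact Nat.eq_of_mul_eq_mul_right (by norm_num : 0 < 4) h2
  · intro i j k l hn h hx
    have h2 : #{w : κ → ι × Bool | (∀ x, cnt w x = mu v x) ∧ w i = w j ∧ w k = w l} *
        ∏ y, (mu v y)! = (Fintype.card κ - 4)! * ((∑ x, mu v x * (mu v x - 1)) *
          (∑ x, mu v x * (mu v x - 1) - 2)) := by
      have := card_eq22 (κ := κ) (mu v) hsum (fun x => (mu_le v x).trans (hx _)) i j k l hn
      exact (congrArg (· * _) cfi).trans this
    rw [hP, hS] at h2
    have hset : #{w : κ → ι × Bool | vs w = v ∧ w i = w j ∧ w k = w l} =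
        #{w : κ → ι × Bool | (∀ x, cnt w x = mu v x) ∧ w i = w j ∧ w k = w l} := by
      congr 1
      ext w
      simp only [mem_filter, mem_univ, true_and, vs_iff hv]
    rw [hset]
    rcases exc_two v (by omega) with ⟨-, -, -, i, hi⟩ | ⟨h3, h4, -⟩
    · have := hx i
      omega
    · rw [h3, h4] at h2
      omega
  · intro i j k hn h hx
    have h2 : #{w : κ → ι × Bool | (∀ x, cnt w x = mu v x) ∧ w i = w j ∧ w j = w k} *
        ∏ y, (mu v y)! = (Fintype.card κ - 3)! * ∑ x, (mu v x).descFactorial 3 := by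
      have := card_eq3 (κ := κ) (mu v) hsum i j k hn
      exact (congrArg (· * _) cfi).trans this
    rw [hP, hS3] at h2
    have hset : #{w : κ → ι × Bool | vs w = v ∧ w i = w j ∧ w j = w k} =
        #{w : κ → ι × Bool | (∀ x, cnt w x = mu v x) ∧ w i = w j ∧ w j = w k} := by
      congr 1
      ext w
      simp only [mem_filter, mem_univ, true_and, vs_iff hv]
    rw [hset]
    rcases exc_two v (by omega) with ⟨h3, -, h4, -⟩ | ⟨-, -, h5⟩
    · rw [h3, h4] at h2
      exact Nat.eq_of_mul_eq_mul_right (by norm_num : 0 < 6) h2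
    · obtain ⟨x, hx⟩ := hx
      have := h5 x
      omega

end

end Pool.Agent.H90.GC
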