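import Pool.Agent.H59.GC.W
import Pool.Agent.H23.GC.Targets2

/-!
Word counts (module W2): the multinomial formula and words with prescribed letters.
-/

set_option autoImplicit false
set_option linter.unusedSectionVars false
set_option linter.unusedSimpArgs false
set_option linter.unusedVariables false

open Finset Pool.Agent.H23.GW Pool.Agent.H23.GC Pool.Agent.H59.GC
open scoped Classical Nat

namespace Pool.Agent.H90.GC

noncomputable section

private theorem cfs {α : Type} {s : Finset α} {P : α → Prop} {d1 d2 : DecidablePred P} :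
    #(@Finset.filter α P d1 s) = #(@Finset.filter α P d2 s) := by
  cases Subsingleton.elim d1 d2
  rfl

private theorem cfi {α : Type} {f1 f2 : Fintype α} {P : α → Prop} {d1 d2 : DecidablePred P} :
    #(@Finset.filter α P d1 (@Finset.univ α f1)) = #(@Finset.filter α P d2 (@Finset.univ α f2)) := by
  cases Subsingleton.elim f1 f2
  cases Subsingleton.elim d1 d2
  rfl

private theorem ccf {K D : Type} {f1 f2 : Fintype K} (c : D → ℕ) {g1 g2 : Fintype (K → D)}
    {d1 : DecidablePred fun w : K → D => ∀ x, @cnt D K f1 w x = c x}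
    {d2 : DecidablePred fun w : K → D => ∀ x, @cnt D K f2 w x = c x} :
    #(@Finset.filter (K → D) (fun w => ∀ x, @cnt D K f1 w x = c x) d1 (@Finset.univ _ g1)) =
      #(@Finset.filter (K → D) (fun w => ∀ x, @cnt D K f2 w x = c x) d2 (@Finset.univ _ g2)) := by
  cases Subsingleton.elim f1 f2
  exact cfi

variable {κ D : Type} [Fintype κ] [Fintype D]

/-- the multinomial formula -/
theorem card_mul (c : D → ℕ) (h : ∑ x, c x = Fintype.card κ) :
    #{w : κ → D | ∀ x, cnt w x = c x} * ∏ x, (c x)! = (Fintype.card κ)! := by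
  obtain ⟨w₀, h0⟩ := exists_count (κ := κ) c h
  have hstab : #{g : Equiv.Perm κ | w₀ ∘ g = w₀} = ∏ x, (c x)! := by
    have h1 := DomMulAct.stabilizer_card w₀
    rw [Fintype.card_subtype] at h1
    rw [h1]
    refine prod_congr rfl fun x _ => ?_
    rw [Fintype.card_subtype, ← h0 x]
    rfl
  have hfib : ∀ w ∈ ({w : κ → D | ∀ x, cnt w x = c x} : Finset (κ → D)),
      #{σ : Equiv.Perm κ | w₀ ∘ σ = w} = ∏ x, (c x)! := by
    intro w hw
    simp only [mem_filter, mem_univ, true_and] at hw
    obtain ⟨σ₀, hσ₀⟩ := exists_perm (w := w) (w' := w₀) (fun x => by rw [hw, h0])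
    rw [← hstab]
    refine card_bij (fun σ _ => σ * σ₀⁻¹) ?_ ?_ ?_
    · intro σ hσ
      simp only [mem_filter, mem_univ, true_and] at hσ ⊢
      ext1 k
      have h2 : w₀ (σ (σ₀⁻¹ k)) = w₀ (σ₀ (σ₀⁻¹ k)) := by
        have h3 := congrFun (hσ.trans hσ₀.symm) (σ₀⁻¹ k)
        exact h3
      simpa using h2
    · intro σ _ τ _ hστ
      exact mul_right_cancel hστ
    · intro g hg
      simp only [mem_filter, mem_univ, true_and] at hg
      refine ⟨g * σ₀, ?_, by simp⟩
      simp only [mem_filter, mem_univ, true_and]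
      rw [← hσ₀]
      ext1 k
      exact congrFun hg (σ₀ k)
  have hmap : ∀ σ ∈ (univ : Finset (Equiv.Perm κ)),
      w₀ ∘ σ ∈ ({w : κ → D | ∀ x, cnt w x = c x} : Finset (κ → D)) := by
    intro σ _
    simp only [mem_filter, mem_univ, true_and]
    intro x
    rw [cnt_comp_perm, h0]
  rw [← Fintype.card_perm, ← Finset.card_univ, card_eq_sum_card_fiberwise hmap,
    sum_congr rfl hfib, sum_const, smul_eq_mul]

/-- words with prescribed letters on the positions `p` -/
theorem card_fix (c : D → ℕ) (p : κ → Prop) (a : κ → D) (hp : ∀ x, cntOn p a x ≤ c x)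
    (Q : ({k // ¬ p k} → D) → Prop) :
    #{w : κ → D | (∀ x, cnt w x = c x) ∧ (∀ k, p k → w k = a k) ∧
      Q (fun k : {k // ¬ p k} => w k)} =
      #{u : {k // ¬ p k} → D | (∀ x, cnt u x = c x - cntOn p a x) ∧ Q u} := by
  have key : ∀ w : κ → D, (∀ k, p k → w k = a k) → ∀ x,
      cnt w x = cntOn p a x + cnt (fun k : {k // ¬ p k} => w k) x := by
    intro w hw x
    rw [cnt_split w p]
    congr 1
    unfold cntOn
    congr 1
    ext k
    simp only [mem_filter, mem_univ, true_and]
    constructor
    · rintro ⟨h1, h2⟩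
      exact ⟨h1, by rw [← hw k h1, h2]⟩
    · rintro ⟨h1, h2⟩
      exact ⟨h1, by rw [hw k h1, h2]⟩
  refine card_bij (fun w _ => fun k : {k // ¬ p k} => w k) ?_ ?_ ?_
  · intro w hw
    simp only [mem_filter, mem_univ, true_and] at hw ⊢
    refine ⟨fun x => ?_, hw.2.2⟩
    have h4 := key w hw.2.1 x
    rw [hw.1] at h4
    omega
  · intro w hw w' hw' hww
    simp only [mem_filter, mem_univ, true_and] at hw hw'
    ext1 k
    by_cases hk : p k
    · rw [hw.2.1 k hk, hw'.2.1 k hk]
    · exact congrFun hww ⟨k, hk⟩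
  · intro u hu
    simp only [mem_filter, mem_univ, true_and] at hu
    have hu' : (fun k : {k // ¬ p k} => (fun k : κ => if hk : p k then a k else u ⟨k, hk⟩) k) =
        u := by
      ext1 k
      simp only
      rw [dif_neg k.2]
    refine ⟨fun k => if hk : p k then a k else u ⟨k, hk⟩, ?_, hu'⟩
    simp only [mem_filter, mem_univ, true_and]
    refine ⟨fun x => ?_, fun k hk => by simp [hk], ?_⟩
    · rw [key _ (fun k hk => by simp [hk]) x]
      have h5 : cnt (fun k : {k // ¬ p k} => (fun k : κ => if hk : p k then a k else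
        u ⟨k, hk⟩) k) x = c x - cntOn p a x := by
        rw [hu', hu.1]
      have := hp x
      simp only at h5
      omega
    · have : Q (fun k : {k // ¬ p k} => (fun k : κ => if hk : p k then a k else
        u ⟨k, hk⟩) k) := by
        rw [hu']
        exact hu.2
      exact this

/-- the product of the factorials after removing `r` letters `x` -/
theorem prod_sub (c : D → ℕ) (x : D) (r : ℕ) (hr : r ≤ c x) :
    (∏ y, (c y)!) = (c x).descFactorial r * ∏ y, (c y - if y = x then r else 0)! := by
  rw [← mul_prod_erase univ _ (mem_univ x), ← mul_prod_erase univ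
    (fun y => (c y - if y = x then r else 0)!) (mem_univ x), ← mul_assoc]
  congr 1
  · simp only [if_true]
    rw [mul_comm]
    exact (Nat.factorial_mul_descFactorial hr).symm
  · refine prod_congr rfl fun y hy => ?_
    rw [if_neg (ne_of_mem_erase hy), Nat.sub_zero]

theorem sum_sub (c : D → ℕ) (x : D) (r : ℕ) (hr : r ≤ c x) :
    ∑ y, (c y - if y = x then r else 0) + r = ∑ y, c y := by
  rw [← add_sum_erase univ _ (mem_univ x), ← add_sum_erase univ c (mem_univ x)]
  simp only [if_true]
  have : ∑ y ∈ univ.erase x, (c y - if y = x then r else 0) = ∑ y ∈ univ.erase x, c y := by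
    refine sum_congr rfl fun y hy => ?_
    rw [if_neg (ne_of_mem_erase hy), Nat.sub_zero]
  rw [this]
  omega

theorem cntOn_const (p : κ → Prop) (x y : D) :
    cntOn p (fun _ => x) y = if y = x then #{k | p k} else 0 := by
  unfold cntOn
  by_cases h : y = x
  · rw [if_pos h]
    congr 1
    ext k
    simp [h]
  · rw [if_neg h, card_eq_zero, filter_eq_empty_iff]
    rintro k _ ⟨-, h2⟩
    exact h h2.symm

/-- the words with letter `x` on all positions of `p` -/
theorem card_const (c : D → ℕ) (h : ∑ x, c x = Fintype.card κ) (p : κ → Prop) (r : ℕ)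
    (hpr : #{k | p k} = r) (x : D) :
    #{w : κ → D | (∀ y, cnt w y = c y) ∧ ∀ k, p k → w k = x} * ∏ y, (c y)! =
      (Fintype.card κ - r)! * (c x).descFactorial r := by
  by_cases hr : r ≤ c x
  · have h1 := card_fix c p (fun _ => x) (fun y => by
      rw [cntOn_const]
      split_ifs with hy
      · rw [hy, hpr]
        exact hr
      · exact Nat.zero_le _) (fun _ => True)
    simp only [and_true, cntOn_const, hpr] at h1
    rw [h1]
    have hcard : Fintype.card {k // ¬ p k} = Fintype.card κ - r := by
      rw [Fintype.card_subtype_compl, Fintype.card_subtype, hpr]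
    have hs := sum_sub c x r hr
    have h2 := card_mul (κ := {k // ¬ p k}) (fun y => c y - if y = x then r else 0) (by
      rw [hcard]
      omega)
    rw [prod_sub c x r hr, ← hcard, ← h2, mul_left_comm, mul_comm]
    exact congrArg (· * _) (congrArg (· * _) (ccf _))
  · rw [Nat.descFactorial_eq_zero_iff_lt.2 (by omega), mul_zero]
    have : (univ.filter fun w : κ → D => (∀ y, cnt w y = c y) ∧ ∀ k, p k → w k = x) = ∅ := by
      rw [filter_eq_empty_iff]
      rintro w _ ⟨h1, h2⟩
      apply hr
      rw [← h1 x, ← hpr]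
      unfold cnt
      refine card_le_card fun k hk => ?_
      simp only [mem_filter, mem_univ, true_and] at hk ⊢
      exact h2 k hk
    rw [this, card_empty, zero_mul]

/-- words with equal letters at two positions -/
theorem card_eq2 (c : D → ℕ) (h : ∑ x, c x = Fintype.card κ) (i j : κ) (hij : i ≠ j) :
    #{w : κ → D | (∀ y, cnt w y = c y) ∧ w i = w j} * ∏ y, (c y)! =
      (Fintype.card κ - 2)! * ∑ x, c x * (c x - 1) := by
  have hpc : #{k | k = i ∨ k = j} = 2 := by
    have : ({k | k = i ∨ k = j} : Finset κ) = {i, j} := by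
      ext k
      simp
    rw [this, Finset.card_pair hij]
  have h1 : #{w : κ → D | (∀ y, cnt w y = c y) ∧ w i = w j} =
      ∑ x, #{w : κ → D | (∀ y, cnt w y = c y) ∧ ∀ k, (k = i ∨ k = j) → w k = x} := by
    rw [card_eq_sum_card_fiberwise (f := fun w : κ → D => w i) (t := univ) (fun _ _ => mem_univ _)]
    refine sum_congr rfl fun x _ => ?_
    congr 1
    ext w
    simp only [mem_filter, mem_univ, true_and]
    constructor
    · rintro ⟨⟨h1, h2⟩, h3⟩
      refine ⟨h1, ?_⟩
      rintro k (rfl | rfl)
      · exact h3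
      · rw [← h2, h3]
    · rintro ⟨h1, h2⟩
      have h3 := h2 i (Or.inl rfl)
      have h4 := h2 j (Or.inr rfl)
      exact ⟨⟨h1, by rw [h3, h4]⟩, h3⟩
  rw [h1, sum_mul, mul_sum]
  refine sum_congr rfl fun x _ => ?_
  have h2 := card_const c h (fun k => k = i ∨ k = j) 2 (cfi.trans hpc) x
  have h3 : (c x).descFactorial 2 = c x * (c x - 1) := by
    simp [Nat.descFactorial, mul_comm]
  rw [h3] at h2
  rw [← h2]
  exact congrArg (· * _) cfi

end

end Pool.Agent.H90.GC
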